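import Pool.Agent.H37.PU.Main
import Pool.Agent.H37.PV.Rat

/-!
PU Rat: Theorem B for rational polynomials and exponents not divisible by `3 ^ A`, uniformly in all intervals of integers.
-/

set_option autoImplicit false

namespace Pool.Agent.H37.PU

open Filter Topology Finset Polynomial Pool.Agent.H37.PPC Pool.Agent.H37.PV Pool.Agent.H3.PO

/-- some power `f(m)^k`, `3^A ∤ k`, is an order (`f` integral) -/
def SIz (A : ℕ) (f : ℤ[X]) : Set ℤ := {m | ∃ k n : ℕ, ¬ 3 ^ A ∣ k ∧ (n : ℤ) = f.eval m ^ k ∧ IsOrder n}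

theorem siz_zero (A : ℕ) : ∀ f : ℤ[X], 1 ≤ f.natDegree → ZB (SIz A f) := by
  induction A with
  | zero =>
    intro f _
    refine (ZB_finite (Set.finite_empty)).mono ?_
    rintro m ⟨k, n, h, -, -⟩
    exact absurd (by simp) h
  | succ A ih =>
    intro f hf
    have h1 := ih (f ^ 3) (by rw [natDegree_pow]; omega)
    refine ((saz_zero f hf).union h1).mono ?_
    rintro m ⟨k, n, h, hn, hO⟩
    by_cases h3 : 3 ∣ k
    · right
      obtain ⟨j, rfl⟩ := h3
      refine ⟨j, n, ?_, ?_, hO⟩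
      · rintro ⟨i, hi⟩
        exact h ⟨i, by rw [hi]; ring⟩
      · rw [hn, eval_pow, ← pow_mul]
    · left
      exact ⟨k, n, h3, hn, hO⟩

/-- some power `f(m)^k`, `3^A ∤ k`, is an order (`f` rational) -/
def SQz (A : ℕ) (f : ℚ[X]) : Set ℤ := {m | ∃ k n : ℕ, ¬ 3 ^ A ∣ k ∧ (n : ℚ) = f.eval (m : ℚ) ^ k ∧ IsOrder n}

theorem ZB_class {S : Set ℤ} (D r : ℕ) (hD : 0 < D) (T : Set ℤ) (hT : ZB T)
    (h : ∀ m ∈ S, m % D = r → m / D ∈ T) : ZB {m | m ∈ S ∧ m % D = r} := by
  classical
  intro ε hε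
  obtain ⟨X, hX⟩ := hT (ε / 2) (by positivity)
  have hD' : (0 : ℤ) < D := by exact_mod_cast hD
  refine ⟨max (X * D) 1, fun x hx M => ?_⟩
  have hx1 : X * D ≤ x := (le_max_left _ _).trans hx
  have hx2 : 1 ≤ x := (le_max_right _ _).trans hx
  have hxD : X ≤ x / D + 1 := ((Nat.le_div_iff_mul_le hD).2 hx1).trans (Nat.le_succ _)
  have hdiv : ∀ i : ℕ, i ≤ x → 0 ≤ (M + i) / D - M / D ∧ (M + i) / D - M / D ≤ ((x / D + 1 : ℕ) : ℤ) := by
    intro i hi
    constructor
    · have h1 : M / D ≤ (M + i) / D := Int.ediv_le_ediv hD' (by omega)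
      omega
    · have h1 : (M + i) / D < M / D + ((x / D + 1 : ℕ) : ℤ) + 1 := by
        rw [Int.ediv_lt_iff_lt_mul hD']
        have h2 : M < (M / D + 1) * D := by
          have := Int.lt_ediv_add_one_mul_self M hD'
          linarith
        have h3 : (x : ℤ) < ((x / D + 1 : ℕ) : ℤ) * D := by
          have h4 : x < (x / D + 1) * D := by
            rw [mul_comm]
            exact Nat.lt_mul_div_succ x hD
          exact_mod_cast h4
        have h5 : (i : ℤ) ≤ x := by exact_mod_cast hi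
        nlinarith
      omega
  have h1 : ((range (x + 1)).filter fun i : ℕ => M + i ∈ {m | m ∈ S ∧ m % D = r}).card ≤
      ((range (x / D + 1 + 1)).filter fun j : ℕ => M / D + j ∈ T).card := by
    refine card_le_card_of_injOn (fun i : ℕ => ((M + i) / D - M / D).toNat) ?_ ?_
    · intro i hi
      rw [coe_filter, Set.mem_ofPred_eq, mem_range] at hi
      obtain ⟨h2, h3⟩ := hdiv i (by omega)
      rw [coe_filter, Set.mem_ofPred_eq, mem_range]
      constructor
      · show ((M + i) / D - M / D).toNat < x / D + 1 + 1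
        omega
      · show M / D + (((M + i) / D - M / D).toNat : ℤ) ∈ T
        rw [Int.toNat_of_nonneg h2]
        have h4 := h (M + i) hi.2.1 hi.2.2
        have h5 : M / D + ((M + i) / D - M / D) = (M + i) / D := by ring
        rwa [h5]
    · intro i hi j hj he
      rw [coe_filter, Set.mem_ofPred_eq, mem_range] at hi hj
      obtain ⟨h2, -⟩ := hdiv i (by omega)
      obtain ⟨h3, -⟩ := hdiv j (by omega)
      have he' : ((M + i) / D - M / D).toNat = ((M + j) / D - M / D).toNat := he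
      have h4 : (M + i) / D = (M + j) / D := by omega
      have h5 := Int.emod_add_mul_ediv (M + i) D
      have h6 := Int.emod_add_mul_ediv (M + j) D
      rw [hi.2.2, h4] at h5
      rw [hj.2.2] at h6
      have h7 : M + (i : ℤ) = M + j := h5.symm.trans h6
      omega
  have h2 : cz (fun m => m ∈ {m | m ∈ S ∧ m % D = r}) M x ≤ cz (fun m => m ∈ T) (M / D) (x / D + 1) := by
    unfold cz
    have h3 : (((range (x + 1)).filter fun i : ℕ => M + i ∈ {m | m ∈ S ∧ m % D = r}).card : ℝ) ≤
      ((range (x / D + 1 + 1)).filter fun j : ℕ => M / D + j ∈ T).card := by exact_mod_cast h1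
    convert h3
  refine h2.trans ((hX (x / D + 1) hxD (M / D)).trans ?_)
  have h4 : ((x / D + 1 : ℕ) : ℝ) ≤ x + 1 := by exact_mod_cast Nat.succ_le_succ (Nat.div_le_self x D)
  have h5 : (1 : ℝ) ≤ x := by exact_mod_cast hx2
  nlinarith

theorem ZB_biUnion (D : ℕ) (S : ℕ → Set ℤ) (h : ∀ r < D, ZB (S r)) : ZB {m | ∃ r < D, m ∈ S r} := by
  induction D with
  | zero =>
    refine (ZB_finite (Set.finite_empty)).mono ?_
    rintro m ⟨r, hr, -⟩
    omega
  | succ D ih =>
    refine ((ih fun r hr => h r (by omega)).union (h D (by omega))).mono ?_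
    rintro m ⟨r, hr, hm⟩
    rcases Nat.lt_succ_iff_lt_or_eq.1 hr with h1 | h1
    · exact Or.inl ⟨r, h1, hm⟩
    · right
      rwa [← h1]

theorem sqz_zero (A : ℕ) (f : ℚ[X]) (hf : 1 ≤ f.natDegree) : ZB (SQz A f) := by
  obtain ⟨D, hD, hg⟩ := on_class f
  have hD0 : (D : ℚ) ≠ 0 := by exact_mod_cast hD.ne'
  have hDz : (0 : ℤ) < D := by exact_mod_cast hD
  have h1 : ∀ r < D, ZB {m | m ∈ SQz A f ∧ m % D = r} := by
    intro r _
    obtain ⟨G, hG⟩ := hg r
    have hval : ∀ t : ℤ, f.eval ((D * t + r : ℤ) : ℚ) = f.eval (r : ℚ) + ((t * G.eval t : ℤ) : ℚ) := by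
      intro t
      have h2 := congrArg (Polynomial.eval (t : ℚ)) hG
      have h3 : (G.map (Int.castRingHom ℚ)).eval (t : ℚ) = ((G.eval t : ℤ) : ℚ) := by
        have h4 := eval_intCast_map (Int.castRingHom ℚ) G t
        rw [h4, eq_intCast]
        norm_num
      rw [eval_comp, eval_add, eval_mul, eval_C, eval_C, eval_X, eval_add, eval_mul, eval_C, eval_X, h3] at h2
      push_cast
      exact h2
    by_cases hr : ∃ z : ℤ, (z : ℚ) = f.eval (r : ℚ)
    · obtain ⟨z, hz⟩ := hr
      have hdeg : 1 ≤ (C z + X * G).natDegree := by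
        by_contra hlt
        have h5 : (C z + X * G).natDegree = 0 := by omega
        obtain ⟨c, hc⟩ := natDegree_eq_zero.1 h5
        have h6 : f.comp (C (D : ℚ) * X + C (r : ℚ)) = C (c : ℚ) := by
          have h7 := congrArg (Polynomial.map (Int.castRingHom ℚ)) hc
          rw [map_C, Polynomial.map_add, Polynomial.map_mul, map_C, map_X] at h7
          rw [hG, ← hz]
          simpa using h7.symm
        have h8 := congrArg natDegree h6
        rw [natDegree_comp, natDegree_C, natDegree_linear hD0, mul_one] at h8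
        omega
      refine ZB_class D r hD (SIz A (C z + X * G)) (siz_zero A _ hdeg) ?_
      rintro m ⟨k, n, h3, hn, hO⟩ hmr
      refine ⟨k, n, h3, ?_, hO⟩
      have h4 := hval (m / D)
      have h5 : (D : ℤ) * (m / D) + r = m := by
        rw [← hmr]
        exact Int.mul_ediv_add_emod m D
      rw [h5, ← hz] at h4
      rw [h4] at hn
      have h6 : (n : ℤ) = (z + (m / D) * G.eval (m / D)) ^ k := by exact_mod_cast hn
      rw [h6]
      simp
    · refine (ZB_finite (Set.finite_empty)).mono ?_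
      rintro m ⟨⟨k, n, h3, hn, hO⟩, hmr⟩
      apply hr
      have hk : k ≠ 0 := by
        rintro rfl
        exact h3 (dvd_zero _)
      obtain ⟨z, hz⟩ := den_mem n _ k hk hn
      have h4 := hval (m / D)
      have h5 : (D : ℤ) * (m / D) + r = m := by
        rw [← hmr]
        exact Int.mul_ediv_add_emod m D
      rw [h5, ← hz] at h4
      refine ⟨z - (m / D) * G.eval (m / D), ?_⟩
      rw [Int.cast_sub, h4]
      ring
  refine (ZB_biUnion D _ h1).mono ?_
  intro m hm
  have h2 := Int.emod_nonneg m hDz.ne'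
  have h3 := Int.emod_lt_of_pos m hDz
  exact ⟨(m % D).toNat, by omega, hm, by rw [Int.toNat_of_nonneg h2]⟩

open Classical in
theorem main_z (f : ℚ[X]) (hf : 1 ≤ f.natDegree) (A : ℕ) (ε : ℝ) (hε : 0 < ε) :
    ∃ Y₀ : ℕ, ∀ Y : ℕ, Y₀ ≤ Y → ∀ M : ℤ, (((Finset.Ioc M (M + Y)).filter fun m : ℤ =>
      ∃ k n : ℕ, ¬ 3 ^ A ∣ k ∧ (n : ℚ) = f.eval (m : ℚ) ^ k ∧ IsOrder n).card : ℝ) ≤ ε * Y := by
  obtain ⟨X, hX⟩ := sqz_zero A f hf ε hε
  refine ⟨X, fun Y hY M => ?_⟩
  refine le_trans ?_ (hX Y hY M)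
  have h1 : ((Finset.Ioc M (M + Y)).filter fun m : ℤ => m ∈ SQz A f).card ≤
      ((range (Y + 1)).filter fun i : ℕ => M + i ∈ SQz A f).card := by
    refine card_le_card_of_injOn (fun m => (m - M).toNat) ?_ ?_
    · intro m hm
      rw [coe_filter, Set.mem_ofPred_eq, mem_Ioc] at hm
      rw [coe_filter, Set.mem_ofPred_eq, mem_range]
      constructor
      · show (m - M).toNat < Y + 1
        omega
      · show M + ((m - M).toNat : ℤ) ∈ SQz A f
        have h2 : M + ((m - M).toNat : ℤ) = m := by omega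
        rw [h2]
        exact hm.2
    · intro m hm m' hm' he
      rw [coe_filter, Set.mem_ofPred_eq, mem_Ioc] at hm hm'
      have he' : (m - M).toNat = (m' - M).toNat := he
      omega
  have h2 : (((Finset.Ioc M (M + Y)).filter fun m : ℤ => m ∈ SQz A f).card : ℝ) ≤
      cz (fun m => m ∈ SQz A f) M Y := by
    unfold cz
    have h3 : (((Finset.Ioc M (M + Y)).filter fun m : ℤ => m ∈ SQz A f).card : ℝ) ≤
      ((range (Y + 1)).filter fun i : ℕ => M + i ∈ SQz A f).card := by exact_mod_cast h1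
    convert h3
  exact h2

end Pool.Agent.H37.PU
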