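import Pool.Agent.H3.PO.Sieve
import Pool.Agent.H37.PV.Key

/-!
PU Key: the sieve argument of `PV/Key.lean`, uniformly in all intervals of integers (with the uniform sieve of `H3/PO/Sieve.lean`).
-/

set_option autoImplicit false

namespace Pool.Agent.H37.PU

open Filter Finset Polynomial Pool.Agent.H37.PPC Pool.Agent.H24.FD Pool.Agent.H37.PV Pool.Agent.H3.PO

/-- the integers `m` for which `f(m) ≥ 2` is bad -/
def SBz (f : ℤ[X]) : Set ℤ := {m | ∃ n : ℕ, (n : ℤ) = f.eval m ∧ 2 ≤ n ∧ Bad n}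

/-- sieving the values of a polynomial by divisibility -/
theorem sieve_dvd (g : ℤ[X]) (S : ℕ → Prop) (hS : ∀ q, S q → q.Prime)
    (hr : ∀ q, S q → ∃ a : ℤ, (q : ℤ) ∣ g.eval a)
    (hdiv : ¬ Summable (fun q : ℕ => open Classical in if S q then (1 : ℝ) / q else 0)) (ε : ℝ) (hε : 0 < ε) :
    ∃ N X0 : ℕ, ∀ x : ℕ, X0 ≤ x → ∀ M : ℤ,
      cz (fun m => ∀ q < N, S q → ¬ (q : ℤ) ∣ g.eval m) M x ≤ ε * x := by
  classical
  obtain ⟨N, X0, hN⟩ := sieve_unif S hS hdiv ε hε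
  refine ⟨N, X0, fun x hx M => ?_⟩
  obtain ⟨gM, hgM⟩ : ∃ gM : ℤ[X], gM = g.comp (X + C M) := ⟨_, rfl⟩
  have he : ∀ n : ℤ, gM.eval n = g.eval (M + n) := by
    intro n
    rw [hgM, eval_comp]
    simp [add_comm]
  have h1 := hN (fun q n => ¬ (q : ℤ) ∣ gM.eval (n : ℤ)) (fun q n => per_dvd gM q n)
    (fun q hq => by
      obtain ⟨a, ha⟩ := hr q hq
      refine card_dvd gM (hS q hq).pos (a := a - M) ?_
      rw [he]
      have : M + (a - M) = a := by ring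
      rw [this]
      exact ha) x hx
  have h2 : cz (fun m => ∀ q < N, S q → ¬ (q : ℤ) ∣ g.eval m) M x =
      (((range (x + 1)).filter fun n : ℕ => ∀ q < N, S q → ¬ (q : ℤ) ∣ gM.eval (n : ℤ)).card : ℝ) := by
    unfold cz
    have h3 : ((range (x + 1)).filter fun i : ℕ => ∀ q < N, S q → ¬ (q : ℤ) ∣ g.eval (M + (i : ℤ))) =
        (range (x + 1)).filter fun n : ℕ => ∀ q < N, S q → ¬ (q : ℤ) ∣ gM.eval (n : ℤ) := by
      refine filter_congr fun n _ => ?_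
      simp only [he]
    congr 1
    convert congrArg card h3
  rw [h2]
  convert h1

theorem keyz (f h : ℤ[X]) (hf : 1 ≤ f.natDegree) (hi : Irreducible h) (hd : 1 ≤ h.natDegree) (B : ℕ)
    (H : ∀ p : ℕ, p.Prime → B < p → ∀ (m : ℤ) (n : ℕ), (n : ℤ) = f.eval m → 2 ≤ n →
      (p : ℤ) ∣ h.eval m → ¬ (p : ℤ) ^ 2 ∣ h.eval m → p ∣ n ∧ ¬ IsSquare n) : ZB (SBz f) := by
  classical
  have hF : 1 ≤ (f ^ 2 + f + 1).natDegree := by
    have h1 : (f ^ 2).natDegree = 2 * f.natDegree := natDegree_pow f 2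
    have h2 : (f + 1).natDegree < (f ^ 2).natDegree := by
      refine lt_of_le_of_lt (natDegree_add_le _ _) ?_
      rw [natDegree_one, h1]
      omega
    rw [add_assoc, natDegree_add_eq_left_of_natDegree_lt h2, h1]
    omega
  obtain ⟨B1, hB1⟩ := test_primes _ hF
  obtain ⟨B2, hB2⟩ := simple_root h hi hd
  obtain ⟨K, hK1, hK2, B3, hB3⟩ := root_of_np h hd
  obtain ⟨B4, hB4⟩ : ∃ B4 : ℕ, B4 = max (max B B1) (max B2 B3) := ⟨_, rfl⟩
  have hle : B ≤ B4 ∧ B1 ≤ B4 ∧ B2 ≤ B4 ∧ B3 ≤ B4 := by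
    rw [hB4]
    refine ⟨?_, ?_, ?_, ?_⟩ <;> simp
  have hS1 := deg_one_div K B4
  intro ε hε
  obtain ⟨P, X1, hP⟩ := sieve_poly h (fun q => q.Prime ∧ B4 < q ∧ 0 < np K q) (fun q h => h.1)
    (fun q hq => hB3 q hq.1 (by have := hq.2.1; omega) hq.2.2)
    (fun q hq b hb => hB2 q hq.1 (by have := hq.2.1; omega) b hb) (by convert hS1) (ε / 2) (by positivity)
  have hp : ∀ p : ℕ, ∃ (N X2 : ℕ) (Q : ℕ → Prop), (p.Prime → B4 < p →
      (∀ q, Q q → q.Prime ∧ q ≠ 2 ∧ ¬ IsSquare ((p : ℕ) : ZMod q)) ∧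
      ∀ x : ℕ, X2 ≤ x → ∀ M : ℤ, cz (fun m => ∀ q < N, Q q →
        ¬ (q : ℤ) ∣ (f ^ 2 + f + 1).eval m) M x ≤ ε / (2 * (P + 1)) * x) := by
    intro p
    by_cases hpp : p.Prime ∧ B4 < p
    · obtain ⟨Q, hQ, hdiv⟩ := hB1 p hpp.1 (by have := hpp.2; omega)
      obtain ⟨N, X2, hN⟩ := sieve_dvd (f ^ 2 + f + 1) Q (fun q h => (hQ q h).1) (fun q h => (hQ q h).2.2.2)
        (by convert hdiv) (ε / (2 * (P + 1))) (by positivity)
      exact ⟨N, X2, Q, fun _ _ => ⟨fun q hq => ⟨(hQ q hq).1, (hQ q hq).2.1, (hQ q hq).2.2.1⟩, hN⟩⟩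
    · exact ⟨0, 0, fun _ => False, fun h1 h2 => absurd ⟨h1, h2⟩ hpp⟩
  choose N X2 Q hNQ using hp
  obtain ⟨T, hT⟩ : ∃ T : Finset ℕ, T = (range P).filter (fun p => p.Prime ∧ B4 < p) := ⟨_, rfl⟩
  have hTm : ∀ p, p ∈ T ↔ p < P ∧ p.Prime ∧ B4 < p := by
    intro p
    rw [hT, mem_filter, mem_range]
  refine ⟨max X1 (T.sup X2), fun x hx M => ?_⟩
  have hx1 := hP x ((le_max_left _ _).trans hx) M
  have hx2 : ∀ p ∈ T, cz (fun m => ∀ q < N p, Q p q →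
        ¬ (q : ℤ) ∣ (f ^ 2 + f + 1).eval m) M x ≤ ε / (2 * (P + 1)) * x := by
    intro p hp
    have h9 : X2 p ≤ T.sup X2 := Finset.le_sup hp
    have h10 := (hTm p).1 hp
    exact (hNQ p h10.2.1 h10.2.2).2 x ((h9.trans (le_max_right _ _)).trans hx) M
  have hsub := cz_mono (A := fun m => m ∈ SBz f) (B := fun n => (∀ q < P, (q.Prime ∧ B4 < q ∧ 0 < np K q) →
        ¬ ((q : ℤ) ∣ h.eval n ∧ ¬ (q : ℤ) ^ 2 ∣ h.eval n)) ∨
        ∃ p ∈ T, ∀ q < N p, Q p q → ¬ (q : ℤ) ∣ (f ^ 2 + f + 1).eval n) M x (by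
    rintro m ⟨n, hn, hn2, hbad⟩
    by_contra hcon
    push Not at hcon
    obtain ⟨h1, h2⟩ := hcon
    obtain ⟨p, hpP, hp1, hp2, hp3⟩ := h1
    obtain ⟨hpp, hBp, _⟩ := hp1
    obtain ⟨q, _, hq1, hq2⟩ := h2 p ((hTm p).2 ⟨hpP, hpp, hBp⟩)
    obtain ⟨hpn, hns⟩ := H p hpp (by omega) m n hn hn2 hp2 hp3
    obtain ⟨hqp, hq2', hqs⟩ := (hNQ p hpp hBp).1 q hq1
    have hM := mg_of_bad hn2 hns hbad
    have hqv : q ∣ n ^ 2 + n + 1 := by
      have h4 : ((n ^ 2 + n + 1 : ℕ) : ℤ) = (f ^ 2 + f + 1).eval m := by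
        push_cast
        rw [hn]
        simp
      rw [← h4] at hq2
      exact_mod_cast hq2
    have hfq : Fact q.Prime := ⟨hqp⟩
    have hp0 : ((p : ℕ) : ZMod q) ≠ 0 := by
      intro h0
      apply hqs
      rw [h0]
      exact ⟨0, by ring⟩
    have h5 := hM p q hpp hpn hqp hqv (q / 2)
    rcases ZMod.pow_div_two_eq_neg_one_or_one q hp0 with h6 | h6
    · exact hqs ((ZMod.euler_criterion q hp0).2 h6)
    · exact h5 h6)
  have h2 := cz_or (fun n => ∀ q < P, (q.Prime ∧ B4 < q ∧ 0 < np K q) →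
        ¬ ((q : ℤ) ∣ h.eval n ∧ ¬ (q : ℤ) ^ 2 ∣ h.eval n))
        (fun n => ∃ p ∈ T, ∀ q < N p, Q p q → ¬ (q : ℤ) ∣ (f ^ 2 + f + 1).eval n) M x
  have h3 := cz_ex T (fun p n => ∀ q < N p, Q p q → ¬ (q : ℤ) ∣ (f ^ 2 + f + 1).eval n) M x
  have h7 := sum_le_sum hx2
  rw [sum_const, nsmul_eq_mul] at h7
  have h4 : (T.card : ℝ) ≤ P := by
    have := card_filter_le (range P) (fun p => p.Prime ∧ B4 < p)
    rw [card_range, ← hT] at this
    exact_mod_cast this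
  have hx0 : (0 : ℝ) ≤ x := Nat.cast_nonneg x
  have h5 : (T.card : ℝ) * (ε / (2 * (P + 1)) * x) ≤ (P + 1) * (ε / (2 * (P + 1)) * x) :=
    mul_le_mul_of_nonneg_right (by linarith) (by positivity)
  have h6 : ((P : ℝ) + 1) * (ε / (2 * (P + 1)) * x) = ε / 2 * x := by
    field_simp
  linarith

end Pool.Agent.H37.PU
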