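import Pool.Agent.H37.PU.Key

/-!
PU Main: Theorem B for integral polynomials, uniformly in all intervals of integers (copy of `PV/Main.lean`).
-/

set_option autoImplicit false

namespace Pool.Agent.H37.PU

open Filter Topology Finset Polynomial Pool.Agent.H37.PPC Pool.Agent.H24.FD Pool.Agent.H37.PV Pool.Agent.H3.PO

/-- an irreducible factor of odd multiplicity -/
theorem case_oddz (f h k : ℤ[X]) (e : ℕ) (hf : 1 ≤ f.natDegree) (hi : Irreducible h) (hd : 1 ≤ h.natDegree)
    (he : Odd e) (hfe : f = h ^ e * k) (hk : ¬ h ∣ k) : ZB (SBz f) := by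
  obtain ⟨B, hB⟩ := coprime_part h k hi hd hk
  refine keyz f h hf hi hd B fun p hp hBp m n hn hn2 h1 h2 => ?_
  have h3 := hB p hp hBp m h1
  have hfm : (n : ℤ) = h.eval m ^ e * k.eval m := by rw [hn, hfe]; simp
  have he0 : e ≠ 0 := by
    rintro rfl
    exact (Nat.not_odd_zero) he
  constructor
  · have h4 : (p : ℤ) ∣ (n : ℤ) := by
      rw [hfm]
      exact (dvd_pow h1 he0).mul_right _
    exact_mod_cast h4
  · rintro ⟨t, ht⟩
    have hpf : Fact p.Prime := ⟨hp⟩
    have hn0 : n ≠ 0 := by omega
    have hn0' : (n : ℤ) ≠ 0 := by exact_mod_cast hn0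
    have hh0 : h.eval m ≠ 0 := by
      intro h5
      rw [hfm, h5, zero_pow he0, zero_mul] at hn0'
      exact hn0' rfl
    have hk0 : k.eval m ≠ 0 := by
      intro h5
      rw [hfm, h5, mul_zero] at hn0'
      exact hn0' rfl
    have ht0 : t ≠ 0 := by
      rintro rfl
      exact hn0 (by simpa using ht)
    have hv1 : padicValInt p (h.eval m) = 1 := by
      have h5 : 1 ≤ padicValInt p (h.eval m) := by
        rw [← Nat.not_lt, Nat.lt_one_iff]
        intro h6
        rcases padicValInt.eq_zero_iff.1 h6 with h7 | h7 | h7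
        · exact hp.one_lt.ne' h7
        · exact hh0 h7
        · exact h7 h1
      have h6 : ¬ 2 ≤ padicValInt p (h.eval m) := by
        intro h7
        apply h2
        have h8 := (padicValInt_dvd_iff 2 (h.eval m)).2 (Or.inr h7)
        exact_mod_cast h8
      omega
    have hv2 : padicValInt p (k.eval m) = 0 := padicValInt.eq_zero_of_not_dvd h3
    have hv3 : padicValInt p (n : ℤ) = e := by
      rw [hfm, padicValInt.mul (pow_ne_zero _ hh0) hk0, hv2]
      have h5 : ∀ j : ℕ, padicValInt p (h.eval m ^ j) = j := by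
        intro j
        induction j with
        | zero => simp
        | succ j ih => rw [pow_succ, padicValInt.mul (pow_ne_zero _ hh0) hh0, ih, hv1]
      rw [h5 e, add_zero]
    have hv4 : padicValInt p (n : ℤ) = padicValNat p t + padicValNat p t := by
      rw [padicValInt.of_nat, ht, padicValNat.mul ht0 ht0]
    rw [hv3] at hv4
    obtain ⟨j, hj⟩ := he
    omega

/-- a non-square constant times a square -/
theorem case_constz (c : ℤ) (g : ℤ[X]) (hf : 1 ≤ (C c * g ^ 2).natDegree) (hc : ¬ IsSquare c) :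
    ZB (SBz (C c * g ^ 2)) := by
  have hg : 1 ≤ g.natDegree := by
    rcases Nat.eq_zero_or_pos g.natDegree with h | h
    · exfalso
      have h1 : (C c * g ^ 2).natDegree ≤ 0 := by
        refine (natDegree_mul_le).trans ?_
        rw [natDegree_C, natDegree_pow, h]
      omega
    · exact h
  obtain ⟨h, hi, hd, hdvd⟩ := exists_irr g hg
  refine keyz _ h hf hi hd 0 fun p hp _ m n hn hn2 h1 _ => ?_
  have hfm : (n : ℤ) = c * g.eval m ^ 2 := by rw [hn]; simp
  have h2 : (p : ℤ) ∣ g.eval m := by
    obtain ⟨g', hg'⟩ := hdvd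
    rw [hg', eval_mul]
    exact h1.mul_right _
  constructor
  · have h4 : (p : ℤ) ∣ (n : ℤ) := by
      rw [hfm]
      exact (dvd_pow h2 two_ne_zero).mul_left _
    exact_mod_cast h4
  · rintro ⟨t, ht⟩
    apply hc
    have hn0' : (n : ℤ) ≠ 0 := by
      have : n ≠ 0 := by omega
      exact_mod_cast this
    have hg0 : g.eval m ≠ 0 := by
      intro h5
      rw [hfm, h5] at hn0'
      exact hn0' (by ring)
    have h5 : c * g.eval m ^ 2 = (t : ℤ) ^ 2 := by
      rw [← hfm, ht]
      push_cast
      ring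
    have h6 : g.eval m ^ 2 ∣ (t : ℤ) ^ 2 := ⟨c, by rw [← h5]; ring⟩
    obtain ⟨s, hs⟩ := (Int.pow_dvd_pow_iff two_ne_zero).1 h6
    refine ⟨s, ?_⟩
    have h7 : g.eval m ^ 2 * c = g.eval m ^ 2 * (s * s) := by
      rw [hs] at h5
      linear_combination h5
    exact mul_left_cancel₀ (pow_ne_zero 2 hg0) h7

theorem sbz_zero : ∀ d : ℕ, ∀ f : ℤ[X], f.natDegree = d → 1 ≤ d → ZB (SBz f) := by
  intro d
  induction d using Nat.strong_induction_on with
  | _ d ih =>
    intro f hfd hd1
    have hf1 : 1 ≤ f.natDegree := by omega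
    have hf0 : f ≠ 0 := by
      rintro rfl
      rw [natDegree_zero] at hf1
      omega
    rcases odd_or_square f hf0 with ⟨h, k, e, hi, hd, he, hfe, hk⟩ | ⟨c, g, hfc⟩
    · exact case_oddz f h k e hf1 hi hd he hfe hk
    · by_cases hc : IsSquare c
      · obtain ⟨b, hb⟩ := hc
        have hfg : f = (C b * g) ^ 2 := by
          rw [hfc, hb, C_mul]
          ring
        have hdg : f.natDegree = 2 * (C b * g).natDegree := by rw [hfg, natDegree_pow]
        have hz1 := ih (C b * g).natDegree (by omega) (C b * g) rfl (by omega)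
        have hz2 := ih (C b * g).natDegree (by omega) (-(C b * g)) (natDegree_neg _) (by omega)
        refine (hz1.union hz2).mono ?_
        rintro m ⟨n, hn, hn2, hbad⟩
        have h1 : (n : ℤ) = (C b * g).eval m ^ 2 := by rw [hn, hfg, eval_pow]
        obtain ⟨s, hs⟩ : ∃ s : ℕ, s = ((C b * g).eval m).natAbs := ⟨_, rfl⟩
        have h2 : n = s ^ 2 := by
          have h3 : (n : ℤ) = (s : ℤ) ^ 2 := by rw [h1, hs, Int.natCast_natAbs, sq_abs]
          exact_mod_cast h3
        have hs2 : 2 ≤ s := by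
          by_contra h3
          have h4 : s ≤ 1 := by omega
          have h5 : s ^ 2 ≤ 1 := by
            calc s ^ 2 ≤ 1 ^ 2 := Nat.pow_le_pow_left h4 2
              _ = 1 := one_pow 2
          omega
        have hbs : Bad s := bad_of_sq (by rwa [h2] at hbad)
        rcases le_or_gt 0 ((C b * g).eval m) with h3 | h3
        · left
          exact ⟨s, by rw [hs, Int.natAbs_of_nonneg h3], hs2, hbs⟩
        · right
          refine ⟨s, ?_, hs2, hbs⟩
          rw [eval_neg, hs]
          omega
      · rw [hfc]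
        exact case_constz c g (by rw [← hfc]; exact hf1) hc

/-- the set of the `m` for which some power `f(m)^k`, `3 ∤ k`, is an order -/
def SAz (f : ℤ[X]) : Set ℤ := {m | ∃ k n : ℕ, ¬ 3 ∣ k ∧ (n : ℤ) = f.eval m ^ k ∧ IsOrder n}

theorem saz_zero (f : ℤ[X]) (hf : 1 ≤ f.natDegree) : ZB (SAz f) := by
  have hfin : {m : ℤ | (f * (f - 1) * (f + 1)).eval m = 0}.Finite := by
    have h0 : f * (f - 1) * (f + 1) ≠ 0 := by
      have h1 : ∀ a : ℤ, f + C a ≠ 0 := by
        intro a h
        have h2 : f = C (-a) := by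
          rw [C_neg]
          exact eq_neg_of_add_eq_zero_left h
        rw [h2, natDegree_C] at hf
        omega
      have e1 := h1 0
      have e2 := h1 (-1)
      have e3 := h1 1
      rw [C_0, add_zero] at e1
      rw [C_neg, C_1, ← sub_eq_add_neg] at e2
      rw [C_1] at e3
      exact mul_ne_zero (mul_ne_zero e1 e2) e3
    have h2 := (f * (f - 1) * (f + 1)).roots.toFinset.finite_toSet
    refine h2.subset ?_
    intro m hm
    rw [mem_coe, Multiset.mem_toFinset, mem_roots h0]
    exact hm
  refine (((sbz_zero _ f rfl hf).union (sbz_zero _ (-f) rfl (by rwa [natDegree_neg]))).union (ZB_finite hfin)).mono ?_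
  rintro m ⟨k, n, h3, hn, hO⟩
  obtain ⟨s, hs⟩ : ∃ s : ℕ, s = (f.eval m).natAbs := ⟨_, rfl⟩
  by_cases h1 : s ≤ 1
  · right
    show (f * (f - 1) * (f + 1)).eval m = 0
    rw [eval_mul, eval_mul, eval_add, eval_sub, eval_one]
    have h2 : f.eval m = 0 ∨ f.eval m = 1 ∨ f.eval m = -1 := by omega
    rcases h2 with h | h | h <;> rw [h] <;> ring
  · left
    have hn' : n = s ^ k := by
      have h4 := congrArg Int.natAbs hn
      rw [Int.natAbs_natCast, Int.natAbs_pow, ← hs] at h4
      exact h4
    have hbs : Bad s := ⟨k, h3, by rwa [← hn']⟩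
    rcases le_or_gt 0 (f.eval m) with h5 | h5
    · left
      exact ⟨s, by rw [hs, Int.natAbs_of_nonneg h5], by omega, hbs⟩
    · right
      refine ⟨s, ?_, by omega, hbs⟩
      rw [eval_neg, hs]
      omega

end Pool.Agent.H37.PU
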